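import Mathlib

/-!
RP+, combinatorial tools (MP_464c42_nt): the layer principle and the smallest elements outside a set. (helper13)
-/

set_option autoImplicit false

namespace Pool.Agent.Helper13.RP

open Finset

/-- The layer principle: if the sum of the weights over every set `{i | s < f i}`, `s ≥ 0`, is at most zero, then the weighted sum of `f` is at most zero. -/
theorem layer {ι : Type*} [Fintype ι] (d : ι → ℝ) : ∀ (N : ℕ) (f : ι → ℝ), (∀ i, 0 ≤ f i) →
    (univ.filter (fun i => 0 < f i)).card ≤ N →
    (∀ s : ℝ, 0 ≤ s → ∑ i ∈ univ.filter (fun i => s < f i), d i ≤ 0) → ∑ i, d i * f i ≤ 0 := by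
  classical
  intro N
  induction N with
  | zero =>
    intro f hf hN _
    have h0 : ∀ i, f i = 0 := by
      intro i
      by_contra hne
      have h1 : i ∈ univ.filter (fun i => 0 < f i) := by
        rw [mem_filter]
        exact ⟨mem_univ _, lt_of_le_of_ne (hf i) (Ne.symm hne)⟩
      have h2 := card_pos.2 ⟨i, h1⟩
      omega
    simp [h0]
  | succ N ih =>
    intro f hf hN h
    rcases (univ.filter (fun i => 0 < f i)).eq_empty_or_nonempty with he | hne
    · exact ih f hf (by rw [he]; simp) h
    · obtain ⟨i0, hi0, hmin⟩ := exists_min_image _ f hne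
      have hm : 0 < f i0 := (mem_filter.1 hi0).2
      have hcases : ∀ i, f i = 0 ∨ f i0 ≤ f i := by
        intro i
        rcases (hf i).lt_or_eq with h1 | h1
        · exact Or.inr (hmin i (mem_filter.2 ⟨mem_univ _, h1⟩))
        · exact Or.inl h1.symm
      let g : ι → ℝ := fun i => max (f i - f i0) 0
      have hg0 : ∀ i, 0 ≤ g i := fun i => le_max_right _ _
      have hgf : ∀ i, f i = g i + (if 0 < f i then f i0 else 0) := by
        intro i
        show f i = max (f i - f i0) 0 + _
        rcases hcases i with h1 | h1
        · rw [h1, if_neg (lt_irrefl _), max_eq_right (by linarith)]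
          ring
        · rw [if_pos (by linarith), max_eq_left (by linarith)]
          ring
      have hcard : (univ.filter (fun i => 0 < g i)).card ≤ N := by
        have h1 : univ.filter (fun i => 0 < g i) ⊂ univ.filter (fun i => 0 < f i) := by
          rw [ssubset_iff_of_subset]
          · refine ⟨i0, hi0, fun h2 => ?_⟩
            have h3 : 0 < max (f i0 - f i0) 0 := (mem_filter.1 h2).2
            rw [sub_self, max_self] at h3
            exact lt_irrefl _ h3
          · intro i hi
            rw [mem_filter] at hi ⊢
            refine ⟨mem_univ _, ?_⟩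
            by_contra h2
            have h3 : f i = 0 := le_antisymm (not_lt.1 h2) (hf i)
            have h4 : 0 < max (f i - f i0) 0 := hi.2
            rw [h3, max_eq_right (by linarith)] at h4
            exact lt_irrefl _ h4
        have h2 := card_lt_card h1
        omega
      have hlev : ∀ s : ℝ, 0 ≤ s → univ.filter (fun i => s < g i) =
          univ.filter (fun i => s + f i0 < f i) := by
        intro s hs
        ext i
        rw [mem_filter, mem_filter]
        have h1 : s < g i ↔ s + f i0 < f i := by
          show s < max (f i - f i0) 0 ↔ _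
          rw [lt_max_iff]
          constructor
          · rintro (h2 | h2)
            · linarith
            · linarith
          · intro h2
            exact Or.inl (by linarith)
        rw [h1]
      have h1 := ih g hg0 hcard (by
        intro s hs
        rw [hlev s hs]
        exact h _ (by linarith))
      have h2 : ∑ i, d i * f i = ∑ i, d i * g i + f i0 * ∑ i ∈ univ.filter (fun i => 0 < f i), d i := by
        rw [sum_filter, mul_sum, ← sum_add_distrib]
        refine sum_congr rfl fun i _ => ?_
        conv_lhs => rw [hgf i]
        split_ifs <;> ring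
      rw [h2]
      have h3 := h 0 le_rfl
      nlinarith [mul_nonneg hm.le (neg_nonneg.2 h3)]

/-- The layer principle, in the form used here. -/
theorem layer_le {ι : Type*} [Fintype ι] (c : ι → ℝ) (e : ℝ) (f : ι → ℝ) (hf : ∀ i, 0 ≤ f i)
    (h : ∀ s : ℝ, 0 ≤ s → ∑ i ∈ univ.filter (fun i => s < f i), c i ≤
      e * (univ.filter (fun i => s < f i)).card) :
    ∑ i, c i * f i ≤ e * ∑ i, f i := by
  have h1 := layer (fun i => c i - e) _ f hf le_rfl (by
    intro s hs
    rw [sum_sub_distrib, sum_const, nsmul_eq_mul]
    have := h s hs
    linarith)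
  have h2 : ∑ i, (c i - e) * f i = ∑ i, c i * f i - e * ∑ i, f i := by
    rw [mul_sum, ← sum_sub_distrib]
    exact sum_congr rfl fun i _ => by ring
  linarith

/-- The `m` smallest elements of a set. -/
theorem exists_smallest {ι : Type*} [DecidableEq ι] (f : ι → ℕ) (A : Finset ι) :
    ∀ m : ℕ, m ≤ A.card → ∃ F : Finset ι, F ⊆ A ∧ F.card = m ∧ ∀ i ∈ F, ∀ j ∈ A, j ∉ F → f i ≤ f j := by
  intro m
  induction m with
  | zero => exact fun _ => ⟨∅, empty_subset _, rfl, fun i hi => absurd hi (notMem_empty i)⟩
  | succ m ih =>
    intro hm
    obtain ⟨F, hFA, hFm, hF⟩ := ih (by omega)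
    have hne : (A \ F).Nonempty := by
      rw [← card_pos, card_sdiff_of_subset hFA]
      omega
    obtain ⟨a, ha, hmin⟩ := exists_min_image _ f hne
    rw [mem_sdiff] at ha
    refine ⟨insert a F, insert_subset ha.1 hFA, by rw [card_insert_of_notMem ha.2, hFm], ?_⟩
    intro i hi j hj hjF
    rw [mem_insert, not_or] at hjF
    rcases mem_insert.1 hi with h | h
    · rw [h]
      exact hmin j (mem_sdiff.2 ⟨hj, hjF.2⟩)
    · exact hF i h j hj hjF.2

/-- The number of the `m` smallest elements outside `D` above a level. -/
theorem card_above {ι : Type*} [Fintype ι] [DecidableEq ι] (f : ι → ℕ) (D F U : Finset ι)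
    (hFD : Disjoint F D) (hF : ∀ i ∈ F, ∀ j, j ∉ D → j ∉ F → f i ≤ f j)
    (hU : ∀ i ∈ U, ∀ j, j ∉ U → f j < f i) :
    (F ∩ U).card = 0 ∨ (F ∩ U).card + Fintype.card ι = F.card + U.card + (D \ U).card := by
  rcases (F ∩ U).eq_empty_or_nonempty with h0 | ⟨a, ha⟩
  · exact Or.inl (by rw [h0, card_empty])
  · right
    rw [mem_inter] at ha
    -- everything outside `D` and outside `U` is in `F`
    have h1 : F \ U = (univ \ D) \ U := by
      ext j
      rw [mem_sdiff, mem_sdiff, mem_sdiff]
      constructor
      · rintro ⟨h2, h3⟩
        exact ⟨⟨mem_univ _, fun h4 => disjoint_left.1 hFD h2 h4⟩, h3⟩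
      · rintro ⟨⟨-, h2⟩, h3⟩
        refine ⟨?_, h3⟩
        by_contra h4
        have h5 := hF a ha.1 j h2 h4
        have h6 := hU a ha.2 j h3
        omega
    have h2 : (F ∩ U).card + (F \ U).card = F.card := card_inter_add_card_sdiff F U
    have h3 : ((univ \ D) \ U).card + (D \ U).card = (univ \ U).card := by
      rw [← card_union_of_disjoint]
      · congr 1
        ext j
        simp only [mem_union, mem_sdiff, mem_univ, true_and]
        tauto
      · rw [disjoint_left]
        intro j hj hj'
        rw [mem_sdiff, mem_sdiff] at hj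
        exact hj.1.2 (mem_sdiff.1 hj').1
    have h4 : (univ \ U).card + U.card = Fintype.card ι := by
      rw [card_sdiff_add_card_eq_card (subset_univ U)]
      rfl
    rw [h1] at h2
    omega

end Pool.Agent.Helper13.RP
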