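import Mathlib

/-!
RP-7, first half (MP_464c42_nt). The `k` smallest of `r` positive integers: the `r`-th power of their product is at most the `k`-th power of the full product.
-/

set_option autoImplicit false

namespace Pool.Agent.Helper13.RP

/-- The case of an increasing family. -/
theorem min_mono {k d : ℕ} (g : Fin (k + d) → ℕ) (hg : Monotone g) :
    (∏ i : Fin k, g (Fin.castAdd d i)) ^ (k + d) ≤ (∏ i, g i) ^ k := by
  rcases Nat.eq_zero_or_pos k with hk | hk
  · subst hk; simp
  · obtain ⟨m, rfl⟩ : ∃ m, k = m + 1 := ⟨k - 1, by omega⟩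
    set c : ℕ := g (Fin.castAdd d (Fin.last m)) with hc
    set P : ℕ := ∏ i : Fin (m + 1), g (Fin.castAdd d i) with hP
    set Q : ℕ := ∏ i : Fin d, g (Fin.natAdd (m + 1) i) with hQ
    have h1 : P ≤ c ^ (m + 1) := by
      have h := Finset.prod_le_pow_card (Finset.univ : Finset (Fin (m + 1)))
        (fun i => g (Fin.castAdd d i)) c (fun i _ => hg (by
          rw [Fin.le_def]; simp; omega))
      simpa using h
    have h2 : c ^ d ≤ Q := by
      have h := Finset.pow_card_le_prod (Finset.univ : Finset (Fin d))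
        (fun i => g (Fin.natAdd (m + 1) i)) c (fun i _ => hg (by
          rw [Fin.le_def]; simp; omega))
      simpa using h
    have h3 : (∏ i, g i) = P * Q := Fin.prod_univ_add g
    rw [h3, mul_pow, pow_add]
    refine Nat.mul_le_mul_left _ ?_
    calc P ^ d ≤ (c ^ (m + 1)) ^ d := Nat.pow_le_pow_left h1 d
      _ = (c ^ d) ^ (m + 1) := by rw [← pow_mul, ← pow_mul, mul_comm]
      _ ≤ Q ^ (m + 1) := Nat.pow_le_pow_left h2 _

theorem min_sel {r k : ℕ} (hk : k ≤ r) (R : Fin r → ℕ) (_hR : ∀ i, 1 ≤ R i) :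
    ∃ e : Fin k → Fin r, Function.Injective e ∧ (∏ i, R (e i)) ^ r ≤ (∏ i, R i) ^ k := by
  obtain ⟨d, rfl⟩ := Nat.exists_eq_add_of_le hk
  refine ⟨fun i => Tuple.sort R (Fin.castAdd d i),
    (Tuple.sort R).injective.comp (Fin.castAdd_injective k d), ?_⟩
  have h := min_mono (R ∘ Tuple.sort R) (Tuple.monotone_sort R)
  have h2 : (∏ i, (R ∘ Tuple.sort R) i) = ∏ i, R i :=
    Equiv.prod_comp (Tuple.sort R) R
  rw [h2] at h
  exact h

end Pool.Agent.Helper13.RP
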