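import Pool.Agent.Helper13.RP.MinSel

/-!
RP, Q3 (MP_464c42_nt). The selection of the `n + 2` smallest of `r` positive integers, for the exponent `(n - 1) / n`.
-/

set_option autoImplicit false

namespace Pool.Agent.Helper13.RP

theorem sel_ge2 {n r : ℕ} (hn : 1 ≤ n) (hr : n + 2 ≤ r) (R : Fin r → ℕ) (hR : ∀ i, 1 ≤ R i) :
    ∃ e : Fin (n + 2) → Fin r, Function.Injective e ∧ ∀ Y : Fin (n + 2) → ℕ,
      (∀ i, 1 ≤ Y i ∧ Y i ≤ 2 * R (e i)) →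
      (∏ i, (Y i : ℝ)) ^ (((n : ℝ) - 1) / n) ≤
        2 ^ (n + 2) * ((∏ i, R i : ℕ) : ℝ) ^ (((n : ℝ) + 1 - 2 / n) / r) := by
  obtain ⟨e, he, h⟩ := min_sel hr R hR
  refine ⟨e, he, fun Y hY => ?_⟩
  have hn1 : (1 : ℝ) ≤ n := by exact_mod_cast hn
  have hn0 : (0 : ℝ) < n := by linarith
  have hr0 : (0 : ℝ) < r := by exact_mod_cast (by omega : 0 < r)
  obtain ⟨α, hα⟩ : ∃ α : ℝ, α = ((n : ℝ) - 1) / n := ⟨_, rfl⟩
  have hα0 : 0 ≤ α := by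
    rw [hα]
    exact div_nonneg (by linarith) hn0.le
  have hα1 : α ≤ 1 := by
    rw [hα, div_le_one hn0]
    linarith
  obtain ⟨A, hA⟩ : ∃ A : ℝ, A = ((∏ i, R (e i) : ℕ) : ℝ) := ⟨_, rfl⟩
  obtain ⟨P, hP⟩ : ∃ P : ℝ, P = ((∏ i, R i : ℕ) : ℝ) := ⟨_, rfl⟩
  have hA0 : 0 ≤ A := by rw [hA]; exact Nat.cast_nonneg _
  have hP0 : 0 ≤ P := by rw [hP]; exact Nat.cast_nonneg _
  have hAP : A ^ r ≤ P ^ (n + 2) := by
    rw [hA, hP]
    exact_mod_cast h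
  have hA1 : A ≤ P ^ (((n : ℝ) + 2) / r) := by
    have h1 := Real.rpow_le_rpow (pow_nonneg hA0 r) hAP (by positivity : (0 : ℝ) ≤ 1 / r)
    rw [← Real.rpow_natCast, ← Real.rpow_natCast, ← Real.rpow_mul hA0, ← Real.rpow_mul hP0,
      mul_one_div_cancel hr0.ne', Real.rpow_one] at h1
    push_cast at h1
    rwa [mul_one_div] at h1
  have hYA : (∏ i, (Y i : ℝ)) ≤ 2 ^ (n + 2) * A := by
    have h2 : (∏ i, Y i) ≤ 2 ^ (n + 2) * ∏ i, R (e i) := by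
      calc (∏ i, Y i) ≤ ∏ i, 2 * R (e i) := Finset.prod_le_prod' fun i _ => (hY i).2
        _ = _ := by rw [Finset.prod_mul_distrib]; simp
    rw [hA]
    exact_mod_cast h2
  have hα2 : ((n : ℝ) + 2) / r * α = ((n : ℝ) + 1 - 2 / n) / r := by
    rw [hα]
    field_simp
    ring
  rw [← hα, ← hP]
  calc (∏ i, (Y i : ℝ)) ^ α ≤ (2 ^ (n + 2) * A) ^ α :=
        Real.rpow_le_rpow (Finset.prod_nonneg fun i _ => Nat.cast_nonneg _) hYA hα0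
    _ = ((2 : ℝ) ^ (n + 2)) ^ α * A ^ α := Real.mul_rpow (by positivity) hA0
    _ ≤ (2 : ℝ) ^ (n + 2) * (P ^ (((n : ℝ) + 2) / r)) ^ α := by
        refine mul_le_mul ?_ (Real.rpow_le_rpow hA0 hA1 hα0) (by positivity) (by positivity)
        have h3 := Real.rpow_le_rpow_of_exponent_le (one_le_pow₀ (by norm_num : (1 : ℝ) ≤ 2) :
          (1 : ℝ) ≤ 2 ^ (n + 2)) hα1
        rwa [Real.rpow_one] at h3
    _ = _ := by rw [← Real.rpow_mul hP0, hα2]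

end Pool.Agent.Helper13.RP
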