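import Pool.Agent.Helper93.RS.Defs
import Pool.Agent.Helper13.RP.Layer

/-!
RS-1, part (1) (MP_464c42_nt). The choice of `n + 2` forms for a set `W` of at least `r - n` forms. (helper13)
-/

set_option autoImplicit false

namespace Pool.Agent.Helper13.RP

open Finset Pool.Agent.Helper93.RS

/-- The facts on the exponent which are used. -/
theorem exS_facts {n r : ℕ} (hn : 1 ≤ n) (hr : n + 2 ≤ r) (hr2 : r ≤ 2 * n) :
    1 / 2 ≤ exS n r ∧ exS n r ≤ 1 ∧ (n : ℝ) ≤ exS n r * r ∧
      2 * (n : ℝ) + 1 - r ≤ exS n r * n := by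
  have hn0 : (0 : ℝ) < n := by exact_mod_cast (by omega : 0 < n)
  have hr0 : (0 : ℝ) < r := by exact_mod_cast (by omega : 0 < r)
  have h1 : (n : ℝ) + 2 ≤ r := by exact_mod_cast hr
  have h2 : (r : ℝ) ≤ 2 * n := by exact_mod_cast hr2
  have ha : (n : ℝ) / r ≤ exS n r := le_max_left _ _
  have hb : (2 * (n : ℝ) + 1 - r) / n ≤ exS n r := le_max_right _ _
  refine ⟨?_, ?_, ?_, ?_⟩
  · refine le_trans ?_ ha
    rw [div_le_div_iff₀ (by norm_num) hr0]
    linarith
  · unfold exS
    refine max_le ?_ ?_
    · rw [div_le_one hr0]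
      linarith
    · rw [div_le_one hn0]
      linarith
  · rwa [div_le_iff₀ hr0] at ha
  · rwa [div_le_iff₀ hn0] at hb

/-- From the layers to the products. -/
theorem prod_of_layer {r : ℕ} (Y : Fin r → ℕ) (hY : ∀ i, 1 ≤ Y i) (c : Fin r → ℝ) (e : ℝ)
    (h : ∀ s : ℝ, 0 ≤ s → ∑ i ∈ univ.filter (fun i => s < Real.log (Y i)), c i ≤
      e * (univ.filter (fun i => s < Real.log (Y i))).card) :
    Real.exp (∑ i, c i * Real.log (Y i)) ≤ (∏ i, (Y i : ℝ)) ^ e := by
  have hY0 : ∀ i, (0 : ℝ) < Y i := fun i => by exact_mod_cast hY i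
  have h1 := layer_le c e (fun i => Real.log (Y i))
    (fun i => Real.log_nonneg (by exact_mod_cast hY i)) h
  have h2 : (∏ i, (Y i : ℝ)) = Real.exp (∑ i, Real.log (Y i)) := by
    rw [Real.exp_sum]
    exact prod_congr rfl fun i _ => (Real.exp_log (hY0 i)).symm
  rw [h2, ← Real.exp_mul]
  apply Real.exp_le_exp.2
  rw [mul_comm _ e]
  exact h1

/-- Part (1). -/
theorem sel_one {n r : ℕ} (hn : 1 ≤ n) (hr : n + 2 ≤ r) (hr2 : r ≤ 2 * n) (Y : Fin r → ℕ)
    (hY : ∀ i, 1 ≤ Y i) (t : Fin r) (ht : ∀ i, Y i ≤ Y t) (W : Finset (Fin r)) (htW : t ∉ W)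
    (hW : r ≤ W.card + n) :
    ∃ (e : Fin (n + 2) → Fin r) (i j l : Fin (n + 2)), Function.Injective e ∧
        i ≠ j ∧ i ≠ l ∧ j ≠ l ∧ e i = t ∧ e j ∈ W ∧ e l ∈ W ∧
        (∏ h ∈ ((Finset.univ.erase i).erase j).erase l, (Y (e h) : ℝ)) *
          Real.sqrt ((Y (e j) : ℝ) * Y (e l)) ≤ (∏ i, (Y i : ℝ)) ^ exS n r := by
  classical
  obtain ⟨he1, he2, he3, he4⟩ := exS_facts hn hr hr2
  obtain ⟨E, hE⟩ : ∃ E, E = exS n r := ⟨_, rfl⟩
  rw [← hE] at he1 he2 he3 he4 ⊢
  -- the two largest elements of `W`
  have hWne : W.Nonempty := by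
    rw [← card_pos]
    omega
  obtain ⟨l0, hl0, hl0m⟩ := exists_max_image W Y hWne
  have hWne2 : (W.erase l0).Nonempty := by
    rw [← card_pos, card_erase_of_mem hl0]
    omega
  obtain ⟨j0, hj0', hj0m⟩ := exists_max_image (W.erase l0) Y hWne2
  have hj0 : j0 ∈ W := (mem_erase.1 hj0').2
  have hjl : j0 ≠ l0 := (mem_erase.1 hj0').1
  have htj : t ≠ j0 := fun h => htW (h ▸ hj0)
  have htl : t ≠ l0 := fun h => htW (h ▸ hl0)
  have hYjl : Y j0 ≤ Y l0 := hl0m j0 hj0
  -- the smallest others
  obtain ⟨D, hD⟩ : ∃ D : Finset (Fin r), D = {t, j0, l0} := ⟨_, rfl⟩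
  have hDc : D.card = 3 := by
    rw [hD, card_insert_of_notMem, card_pair hjl]
    simp only [mem_insert, mem_singleton, not_or]
    exact ⟨htj, htl⟩
  have hAc : (univ \ D).card = r - 3 := by
    rw [card_sdiff_of_subset (subset_univ D), card_univ, Fintype.card_fin, hDc]
  obtain ⟨F, hFA, hFc, hFm⟩ := exists_smallest Y (univ \ D) (n - 1) (by omega)
  have hFD : Disjoint F D := by
    rw [disjoint_left]
    intro a ha ha'
    exact (mem_sdiff.1 (hFA ha)).2 ha'
  have hFm' : ∀ i ∈ F, ∀ j, j ∉ D → j ∉ F → Y i ≤ Y j := fun i hi j hj hjF =>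
    hFm i hi j (mem_sdiff.2 ⟨mem_univ _, hj⟩) hjF
  have hDF : (D ∪ F).card = n + 2 := by
    rw [card_union_of_disjoint hFD.symm, hDc, hFc]
    omega
  -- the enumeration
  let e : Fin (n + 2) → Fin r := (D ∪ F).orderEmbOfFin hDF
  have hinj : Function.Injective e := ((D ∪ F).orderEmbOfFin hDF).injective
  have himg : univ.image e = D ∪ F := by
    show univ.image ((D ∪ F).orderEmbOfFin hDF) = D ∪ F
    ext x
    rw [mem_image]
    constructor
    · rintro ⟨y, -, rfl⟩
      exact orderEmbOfFin_mem _ _ _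
    · intro hx
      have h1 : x ∈ Set.range ((D ∪ F).orderEmbOfFin hDF) := by
        rw [range_orderEmbOfFin]
        exact hx
      obtain ⟨y, hy⟩ := h1
      exact ⟨y, mem_univ _, hy⟩
  have htD : t ∈ D := by rw [hD]; simp
  have hjD : j0 ∈ D := by rw [hD]; simp
  have hlD : l0 ∈ D := by rw [hD]; simp
  have hsurj : ∀ x ∈ D, ∃ y, e y = x := by
    intro x hx
    have h1 : x ∈ univ.image e := by
      rw [himg]
      exact mem_union_left _ hx
    obtain ⟨y, -, hy⟩ := mem_image.1 h1
    exact ⟨y, hy⟩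
  obtain ⟨i, hi⟩ := hsurj t htD
  obtain ⟨j, hj⟩ := hsurj j0 hjD
  obtain ⟨l, hl⟩ := hsurj l0 hlD
  refine ⟨e, i, j, l, hinj, ?_, ?_, ?_, hi, by rw [hj]; exact hj0, by rw [hl]; exact hl0, ?_⟩
  · intro h; rw [h, hj] at hi; exact htj hi.symm
  · intro h; rw [h, hl] at hi; exact htl hi.symm
  · intro h; rw [h, hl] at hj; exact hjl hj.symm
  -- the product over `F`
  have hprod : (∏ h ∈ ((univ.erase i).erase j).erase l, (Y (e h) : ℝ)) = ∏ x ∈ F, (Y x : ℝ) := by
    have h1 : (((univ.erase i).erase j).erase l).image e = F := by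
      rw [image_erase hinj, image_erase hinj, image_erase hinj, himg, hi, hj, hl]
      ext x
      simp only [mem_erase, mem_union]
      constructor
      · rintro ⟨h2, h3, h4, h5 | h5⟩
        · rw [hD] at h5
          simp only [mem_insert, mem_singleton] at h5
          rcases h5 with h5 | h5 | h5
          · exact absurd h5 h4
          · exact absurd h5 h3
          · exact absurd h5 h2
        · exact h5
      · intro h2
        have h3 : x ∉ D := fun h4 => disjoint_left.1 hFD h2 h4
        exact ⟨fun h => h3 (h ▸ hlD), fun h => h3 (h ▸ hjD), fun h => h3 (h ▸ htD), Or.inr h2⟩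
    rw [← h1, prod_image (fun x _ y _ hxy => hinj hxy)]
  rw [hprod, hj, hl]
  -- the weights
  have hY0 : ∀ i, (0 : ℝ) < Y i := fun i => by exact_mod_cast hY i
  let c : Fin r → ℝ := fun x => (if x ∈ F then 1 else 0) + ((if x = j0 then 1 / 2 else 0) +
    (if x = l0 then 1 / 2 else 0))
  have hsumc : ∀ U : Finset (Fin r), ∑ x ∈ U, c x = ((F ∩ U).card : ℝ) +
      ((if j0 ∈ U then 1 / 2 else 0) + (if l0 ∈ U then 1 / 2 else 0)) := by
    intro U
    show ∑ x ∈ U, ((if x ∈ F then (1 : ℝ) else 0) + ((if x = j0 then 1 / 2 else 0) +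
      (if x = l0 then 1 / 2 else 0))) = _
    rw [sum_add_distrib, sum_add_distrib, sum_ite_eq', sum_ite_eq', ← sum_filter, sum_const,
      nsmul_eq_mul, mul_one, inter_comm F U]
    congr 2
  have hlhs : (∏ x ∈ F, (Y x : ℝ)) * Real.sqrt ((Y j0 : ℝ) * Y l0) =
      Real.exp (∑ x, c x * Real.log (Y x)) := by
    have h1 : ∑ x, c x * Real.log (Y x) = ∑ x ∈ F, Real.log (Y x) +
        (Real.log (Y j0) / 2 + Real.log (Y l0) / 2) := by
      show ∑ x, ((if x ∈ F then (1 : ℝ) else 0) + ((if x = j0 then 1 / 2 else 0) +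
        (if x = l0 then 1 / 2 else 0))) * Real.log (Y x) = _
      have h2 : ∀ x : Fin r, ((if x ∈ F then (1 : ℝ) else 0) + ((if x = j0 then 1 / 2 else 0) +
          (if x = l0 then 1 / 2 else 0))) * Real.log (Y x) =
          (if x ∈ F then Real.log (Y x) else 0) + ((if x = j0 then Real.log (Y x) / 2 else 0) +
          (if x = l0 then Real.log (Y x) / 2 else 0)) := by
        intro x
        split_ifs <;> ring
      rw [sum_congr rfl fun x _ => h2 x, sum_add_distrib, sum_add_distrib, sum_ite_mem,
        univ_inter, sum_ite_eq', sum_ite_eq', if_pos (mem_univ _), if_pos (mem_univ _)]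
    have h3 : Real.sqrt ((Y j0 : ℝ) * Y l0) =
        Real.exp (Real.log (Y j0) / 2 + Real.log (Y l0) / 2) := by
      have h4 : (Y j0 : ℝ) * Y l0 = Real.exp (Real.log (Y j0) / 2 + Real.log (Y l0) / 2) ^ 2 := by
        rw [← Real.exp_nat_mul]
        have h5 : ((2 : ℕ) : ℝ) * (Real.log (Y j0) / 2 + Real.log (Y l0) / 2) =
            Real.log (Y j0) + Real.log (Y l0) := by
          push_cast
          ring
        rw [h5, Real.exp_add, Real.exp_log (hY0 _), Real.exp_log (hY0 _)]
      rw [h4, Real.sqrt_sq (Real.exp_pos _).le]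
    rw [h1, Real.exp_add, Real.exp_sum, h3]
    congr 1
    exact prod_congr rfl fun x _ => (Real.exp_log (hY0 x)).symm
  rw [hlhs]
  apply prod_of_layer Y hY
  intro s hs
  obtain ⟨U, hU⟩ : ∃ U, U = univ.filter (fun i => s < Real.log (Y i)) := ⟨_, rfl⟩
  rw [← hU, hsumc U]
  have hmem : ∀ x, x ∈ U ↔ s < Real.log (Y x) := by
    intro x
    rw [hU, mem_filter]
    simp
  have hmono : ∀ x y : Fin r, Y x ≤ Y y → x ∈ U → y ∈ U := by
    intro x y hxy hx
    rw [hmem] at hx ⊢
    exact hx.trans_le (Real.log_le_log (hY0 x) (by exact_mod_cast hxy))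
  have hup : ∀ i ∈ U, ∀ j, j ∉ U → Y j < Y i := by
    intro x hx y hy
    by_contra h
    exact hy (hmono x y (not_lt.1 h) hx)
  rcases U.eq_empty_or_nonempty with h0 | ⟨u0, hu0⟩
  · rw [h0]
    simp
  have htU : t ∈ U := hmono u0 t (ht u0) hu0
  have hca := card_above Y D F U hFD hFm' hup
  rw [Fintype.card_fin, hFc] at hca
  have hUr : U.card ≤ r := by
    have := card_le_univ U
    rwa [Fintype.card_fin] at this
  have hUrR : (U.card : ℝ) ≤ r := by exact_mod_cast hUr
  have hnR : (1 : ℝ) ≤ n := by exact_mod_cast hn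
  have hcast : ∀ a : ℕ, (F ∩ U).card + r = (n - 1) + U.card + a →
      ((F ∩ U).card : ℝ) = n - 1 + U.card + a - r := by
    intro a ha
    have h1 : (F ∩ U).card + r + 1 = n + U.card + a := by omega
    have h2 : ((F ∩ U).card : ℝ) + r + 1 = n + U.card + a := by exact_mod_cast h1
    linarith
  by_cases hjU : j0 ∈ U
  · -- both in `U`
    have hlU : l0 ∈ U := hmono j0 l0 hYjl hjU
    have hDU : (D \ U).card = 0 := by
      rw [card_eq_zero, sdiff_eq_empty_iff_subset, hD]
      intro x hx
      simp only [mem_insert, mem_singleton] at hx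
      rcases hx with h | h | h <;> rw [h] <;> assumption
    have h3 : 3 ≤ U.card := by
      rw [← hDc]
      apply card_le_card
      rw [hD]
      intro x hx
      simp only [mem_insert, mem_singleton] at hx
      rcases hx with h | h | h <;> rw [h] <;> assumption
    have h3R : (3 : ℝ) ≤ U.card := by exact_mod_cast h3
    rw [if_pos hjU, if_pos hlU]
    rcases hca with h | h
    · rw [h]
      push_cast
      nlinarith
    · rw [hDU] at h
      have h4 := hcast 0 h
      push_cast at h4
      rw [h4]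
      nlinarith [mul_nonneg (sub_nonneg.2 he2) (sub_nonneg.2 hUrR)]
  · by_cases hlU : l0 ∈ U
    · -- only `l0` in `U`
      have hDU : (D \ U).card = 1 := by
        have h1 : D \ U = {j0} := by
          ext x
          rw [mem_sdiff, mem_singleton, hD]
          simp only [mem_insert, mem_singleton]
          constructor
          · rintro ⟨h | h | h, h2⟩
            · exact absurd (h ▸ htU) h2
            · exact h
            · exact absurd (h ▸ hlU) h2
          · intro h
            exact ⟨Or.inr (Or.inl h), h ▸ hjU⟩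
        rw [h1, card_singleton]
      have h2 : 2 ≤ U.card := by
        rw [← card_pair htl]
        apply card_le_card
        intro x hx
        simp only [mem_insert, mem_singleton] at hx
        rcases hx with h | h <;> rw [h] <;> assumption
      have h2R : (2 : ℝ) ≤ U.card := by exact_mod_cast h2
      -- the other elements of `W` are below
      have hWU : U.card + (W.card - 1) ≤ r := by
        have h4 : Disjoint U (W.erase l0) := by
          rw [disjoint_left]
          intro x hx hx'
          exact hjU (hmono x j0 (hj0m x hx') hx)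
        have h5 := card_le_univ (U ∪ W.erase l0)
        rwa [card_union_of_disjoint h4, card_erase_of_mem hl0, Fintype.card_fin] at h5
      have h6 : U.card ≤ n + 1 := by omega
      have h6R : (U.card : ℝ) ≤ n + 1 := by exact_mod_cast h6
      rw [if_neg hjU, if_pos hlU]
      rcases hca with h | h
      · rw [h]
        push_cast
        nlinarith
      · rw [hDU] at h
        have h4 := hcast 1 h
        push_cast at h4
        rw [h4]
        nlinarith [mul_nonneg (sub_nonneg.2 he2) (sub_nonneg.2 h6R)]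
    · -- none in `U`
      have hDU : (D \ U).card = 2 := by
        have h1 : D \ U = {j0, l0} := by
          ext x
          rw [mem_sdiff, hD]
          simp only [mem_insert, mem_singleton]
          constructor
          · rintro ⟨h | h | h, h2⟩
            · exact absurd (h ▸ htU) h2
            · exact Or.inl h
            · exact Or.inr h
          · rintro (h | h)
            · exact ⟨Or.inr (Or.inl h), h ▸ hjU⟩
            · exact ⟨Or.inr (Or.inr h), h ▸ hlU⟩
        rw [h1, card_pair hjl]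
      have hWU : U.card + W.card ≤ r := by
        have h4 : Disjoint U W := by
          rw [disjoint_left]
          intro x hx hx'
          exact hlU (hmono x l0 (hl0m x hx') hx)
        have h5 := card_le_univ (U ∪ W)
        rwa [card_union_of_disjoint h4, Fintype.card_fin] at h5
      have h6 : U.card ≤ n := by omega
      have h6R : (U.card : ℝ) ≤ n := by exact_mod_cast h6
      have hU0 : (0 : ℝ) ≤ U.card := Nat.cast_nonneg _
      rw [if_neg hjU, if_neg hlU]
      rcases hca with h | h
      · rw [h]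
        push_cast
        nlinarith
      · rw [hDU] at h
        have h4 := hcast 2 h
        push_cast at h4
        rw [h4]
        nlinarith [mul_nonneg (sub_nonneg.2 he2) (sub_nonneg.2 h6R)]

end Pool.Agent.Helper13.RP
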