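import Pool.Agent.Helper13.RP.SelOne

/-!
RS-1, part (2) (MP_464c42_nt). The choice of `n + 2` forms for two forms without small ratio. (helper13)
-/

set_option autoImplicit false

namespace Pool.Agent.Helper13.RP

open Finset Pool.Agent.Helper93.RS

/-- An enumeration of a finite set. -/
theorem exists_enum {r m : ℕ} (B : Finset (Fin r)) (hB : B.card = m) :
    ∃ e : Fin m → Fin r, Function.Injective e ∧ univ.image e = B := by
  classical
  refine ⟨B.orderEmbOfFin hB, (B.orderEmbOfFin hB).injective, ?_⟩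
  ext x
  rw [mem_image]
  constructor
  · rintro ⟨y, -, rfl⟩
    exact orderEmbOfFin_mem _ _ _
  · intro hx
    have h1 : x ∈ Set.range (B.orderEmbOfFin hB) := by
      rw [range_orderEmbOfFin]
      exact hx
    obtain ⟨y, hy⟩ := h1
    exact ⟨y, mem_univ _, hy⟩

/-- The two forms `t`, `b` and the `n` smallest others. -/
theorem sel_pair {n r : ℕ} (hn : 1 ≤ n) (hr : n + 2 ≤ r) (hr2 : r ≤ 2 * n) (Y : Fin r → ℕ)
    (hY : ∀ i, 1 ≤ Y i) (t : Fin r) (ht : ∀ i, Y i ≤ Y t) (b : Fin r) (htb : t ≠ b)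
    (V : Finset (Fin r)) (hV : r ≤ V.card + n) (hVb : ∀ x ∈ V, Y x ≤ Y b) :
    ∃ (e : Fin (n + 2) → Fin r) (i j : Fin (n + 2)), Function.Injective e ∧ i ≠ j ∧ e i = t ∧
      e j = b ∧ (∏ h ∈ (Finset.univ.erase i).erase j, (Y (e h) : ℝ)) ≤
        (∏ i, (Y i : ℝ)) ^ exS n r := by
  classical
  obtain ⟨he1, he2, he3, he4⟩ := exS_facts hn hr hr2
  obtain ⟨E, hE⟩ : ∃ E, E = exS n r := ⟨_, rfl⟩
  rw [← hE] at he1 he2 he3 he4 ⊢
  obtain ⟨D, hD⟩ : ∃ D : Finset (Fin r), D = {t, b} := ⟨_, rfl⟩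
  have hDc : D.card = 2 := by rw [hD, card_pair htb]
  have hAc : (univ \ D).card = r - 2 := by
    rw [card_sdiff_of_subset (subset_univ D), card_univ, Fintype.card_fin, hDc]
  obtain ⟨F, hFA, hFc, hFm⟩ := exists_smallest Y (univ \ D) n (by omega)
  have hFD : Disjoint F D := by
    rw [disjoint_left]
    intro a ha ha'
    exact (mem_sdiff.1 (hFA ha)).2 ha'
  have hFm' : ∀ i ∈ F, ∀ j, j ∉ D → j ∉ F → Y i ≤ Y j := fun i hi j hj hjF =>
    hFm i hi j (mem_sdiff.2 ⟨mem_univ _, hj⟩) hjF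
  have hDF : (D ∪ F).card = n + 2 := by
    rw [card_union_of_disjoint hFD.symm, hDc, hFc]
    omega
  obtain ⟨e, hinj, himg⟩ := exists_enum (D ∪ F) hDF
  have htD : t ∈ D := by rw [hD]; simp
  have hbD : b ∈ D := by rw [hD]; simp
  have hsurj : ∀ x ∈ D, ∃ y, e y = x := by
    intro x hx
    have h1 : x ∈ univ.image e := by
      rw [himg]
      exact mem_union_left _ hx
    obtain ⟨y, -, hy⟩ := mem_image.1 h1
    exact ⟨y, hy⟩
  obtain ⟨i, hi⟩ := hsurj t htD
  obtain ⟨j, hj⟩ := hsurj b hbD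
  refine ⟨e, i, j, hinj, ?_, hi, hj, ?_⟩
  · intro h; rw [h, hj] at hi; exact htb hi.symm
  have hprod : (∏ h ∈ (univ.erase i).erase j, (Y (e h) : ℝ)) = ∏ x ∈ F, (Y x : ℝ) := by
    have h1 : ((univ.erase i).erase j).image e = F := by
      rw [image_erase hinj, image_erase hinj, himg, hi, hj]
      ext x
      simp only [mem_erase, mem_union]
      constructor
      · rintro ⟨h3, h4, h5 | h5⟩
        · rw [hD] at h5
          simp only [mem_insert, mem_singleton] at h5
          rcases h5 with h5 | h5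
          · exact absurd h5 h4
          · exact absurd h5 h3
        · exact h5
      · intro h2
        have h3 : x ∉ D := fun h4 => disjoint_left.1 hFD h2 h4
        exact ⟨fun h => h3 (h ▸ hbD), fun h => h3 (h ▸ htD), Or.inr h2⟩
    rw [← h1, prod_image (fun x _ y _ hxy => hinj hxy)]
  rw [hprod]
  have hY0 : ∀ i, (0 : ℝ) < Y i := fun i => by exact_mod_cast hY i
  have hlhs : (∏ x ∈ F, (Y x : ℝ)) =
      Real.exp (∑ x, (if x ∈ F then (1 : ℝ) else 0) * Real.log (Y x)) := by
    have h1 : ∑ x, (if x ∈ F then (1 : ℝ) else 0) * Real.log (Y x) =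
        ∑ x ∈ F, Real.log (Y x) := by
      have h2 : ∀ x : Fin r, (if x ∈ F then (1 : ℝ) else 0) * Real.log (Y x) =
          (if x ∈ F then Real.log (Y x) else 0) := by
        intro x
        split_ifs <;> ring
      rw [sum_congr rfl fun x _ => h2 x, sum_ite_mem, univ_inter]
    rw [h1, Real.exp_sum]
    exact prod_congr rfl fun x _ => (Real.exp_log (hY0 x)).symm
  rw [hlhs]
  apply prod_of_layer Y hY
  intro s hs
  obtain ⟨U, hU⟩ : ∃ U, U = univ.filter (fun i => s < Real.log (Y i)) := ⟨_, rfl⟩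
  rw [← hU, ← sum_filter, sum_const, nsmul_eq_mul, mul_one]
  have hFU : U.filter (fun x => x ∈ F) = F ∩ U := by
    ext x
    rw [mem_filter, mem_inter, and_comm]
  rw [hFU]
  have hmem : ∀ x, x ∈ U ↔ s < Real.log (Y x) := by
    intro x
    rw [hU, mem_filter]
    simp
  have hmono : ∀ x y : Fin r, Y x ≤ Y y → x ∈ U → y ∈ U := by
    intro x y hxy hx
    rw [hmem] at hx ⊢
    exact hx.trans_le (Real.log_le_log (hY0 x) (by exact_mod_cast hxy))
  have hup : ∀ i ∈ U, ∀ j, j ∉ U → Y j < Y i := by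
    intro x hx y hy
    by_contra h
    exact hy (hmono x y (not_lt.1 h) hx)
  have hE0 : 0 ≤ E := by linarith
  rcases U.eq_empty_or_nonempty with h0 | ⟨u0, hu0⟩
  · rw [h0]
    simp
  have htU : t ∈ U := hmono u0 t (ht u0) hu0
  have hca := card_above Y D F U hFD hFm' hup
  rw [Fintype.card_fin, hFc] at hca
  have hUr : U.card ≤ r := by
    have := card_le_univ U
    rwa [Fintype.card_fin] at this
  have hUrR : (U.card : ℝ) ≤ r := by exact_mod_cast hUr
  have hU0 : (0 : ℝ) ≤ U.card := Nat.cast_nonneg _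
  by_cases hbU : b ∈ U
  · have hDU : (D \ U).card = 0 := by
      rw [card_eq_zero, sdiff_eq_empty_iff_subset, hD]
      intro x hx
      simp only [mem_insert, mem_singleton] at hx
      rcases hx with h | h <;> rw [h] <;> assumption
    rcases hca with h | h
    · rw [h]
      push_cast
      exact mul_nonneg hE0 hU0
    · rw [hDU] at h
      have h2 : ((F ∩ U).card : ℝ) + r = n + U.card + 0 := by exact_mod_cast h
      nlinarith [mul_nonneg (sub_nonneg.2 he2) (sub_nonneg.2 hUrR)]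
  · have hDU : (D \ U).card = 1 := by
      have h1 : D \ U = {b} := by
        ext x
        rw [mem_sdiff, mem_singleton, hD]
        simp only [mem_insert, mem_singleton]
        constructor
        · rintro ⟨h | h, h2⟩
          · exact absurd (h ▸ htU) h2
          · exact h
        · intro h
          exact ⟨Or.inr h, h ▸ hbU⟩
      rw [h1, card_singleton]
    have hVU : U.card + V.card ≤ r := by
      have h4 : Disjoint U V := by
        rw [disjoint_left]
        intro x hx hx'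
        exact hbU (hmono x b (hVb x hx') hx)
      have h5 := card_le_univ (U ∪ V)
      rwa [card_union_of_disjoint h4, Fintype.card_fin] at h5
    have h6 : U.card ≤ n := by omega
    have h6R : (U.card : ℝ) ≤ n := by exact_mod_cast h6
    rcases hca with h | h
    · rw [h]
      push_cast
      exact mul_nonneg hE0 hU0
    · rw [hDU] at h
      have h2 : ((F ∩ U).card : ℝ) + r = n + U.card + 1 := by exact_mod_cast h
      nlinarith [mul_nonneg (sub_nonneg.2 he2) (sub_nonneg.2 h6R)]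

/-- Part (2). -/
theorem sel_two {n r : ℕ} (hn : 1 ≤ n) (hr : n + 2 ≤ r) (hr2 : r ≤ 2 * n) (Y : Fin r → ℕ)
    (hY : ∀ i, 1 ≤ Y i) (t : Fin r) (ht : ∀ i, Y i ≤ Y t) :
    ∃ (e : Fin (n + 2) → Fin r) (i : Fin (n + 2)), Function.Injective e ∧ e i = t ∧
      ∀ b b' : Fin (n + 2), b ≠ i → b' ≠ i → b ≠ b' → ∃ c, (c = b ∨ c = b') ∧
        ∃ (e' : Fin (n + 2) → Fin r) (i' j' : Fin (n + 2)), Function.Injective e' ∧
          i' ≠ j' ∧ e' i' = t ∧ e' j' = e c ∧
          (∏ h ∈ (Finset.univ.erase i').erase j', (Y (e' h) : ℝ)) ≤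
            (∏ i, (Y i : ℝ)) ^ exS n r := by
  classical
  have hAc : ((univ : Finset (Fin r)).erase t).card = r - 1 := by
    rw [card_erase_of_mem (mem_univ t), card_univ, Fintype.card_fin]
  obtain ⟨F0, hF0A, hF0c, hF0m⟩ := exists_smallest Y (univ.erase t) (r - (n + 2)) (by omega)
  have htF0 : t ∉ F0 := fun h => (mem_erase.1 (hF0A h)).1 rfl
  have hBc : (univ \ F0).card = n + 2 := by
    rw [card_sdiff_of_subset (subset_univ F0), card_univ, Fintype.card_fin, hF0c]
    omega
  obtain ⟨e, hinj, himg⟩ := exists_enum (univ \ F0) hBc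
  have heF0 : ∀ y, e y ∉ F0 := by
    intro y
    have h1 : e y ∈ univ.image e := mem_image.2 ⟨y, mem_univ _, rfl⟩
    rw [himg] at h1
    exact (mem_sdiff.1 h1).2
  obtain ⟨i, -, hi⟩ := mem_image.1 (by
    rw [himg]
    exact mem_sdiff.2 ⟨mem_univ _, htF0⟩ : t ∈ univ.image e)
  refine ⟨e, i, hinj, hi, ?_⟩
  -- the statement for an ordered pair
  have key : ∀ b b' : Fin (n + 2), b ≠ i → b' ≠ i → b ≠ b' → Y (e b') ≤ Y (e b) →
      ∃ (e' : Fin (n + 2) → Fin r) (i' j' : Fin (n + 2)), Function.Injective e' ∧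
          i' ≠ j' ∧ e' i' = t ∧ e' j' = e b ∧
          (∏ h ∈ (Finset.univ.erase i').erase j', (Y (e' h) : ℝ)) ≤
            (∏ i, (Y i : ℝ)) ^ exS n r := by
    intro b b' hb hb' hbb hle
    have htb : t ≠ e b := fun h => hb (hinj (h.symm.trans hi.symm))
    refine sel_pair hn hr hr2 Y hY t ht (e b) htb (insert (e b) (insert (e b') F0)) ?_ ?_
    · rw [card_insert_of_notMem, card_insert_of_notMem (heF0 b'), hF0c]
      · omega
      · rw [mem_insert, not_or]
        exact ⟨fun h => hbb (hinj h), heF0 b⟩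
    · intro x hx
      rw [mem_insert, mem_insert] at hx
      rcases hx with h | h | h
      · rw [h]
      · rw [h]
        exact hle
      · exact hF0m x h (e b) (mem_erase.2 ⟨fun h2 => htb h2.symm, mem_univ _⟩) (heF0 b)
  intro b b' hb hb' hbb
  rcases le_total (Y (e b')) (Y (e b)) with h | h
  · exact ⟨b, Or.inl rfl, key b b' hb hb' hbb h⟩
  · exact ⟨b', Or.inr rfl, key b' b hb' hb (Ne.symm hbb) h⟩

theorem sel_comb (n r : ℕ) (hn : 1 ≤ n) (hr : n + 2 ≤ r) (hr2 : r ≤ 2 * n) (Y : Fin r → ℕ)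
    (hY : ∀ i, 1 ≤ Y i) : Sel n r Y ((∏ i, (Y i : ℝ)) ^ exS n r) := by
  obtain ⟨t, -, ht⟩ := exists_max_image (univ : Finset (Fin r)) Y ⟨⟨0, by omega⟩, mem_univ _⟩
  have ht' : ∀ i, Y i ≤ Y t := fun i => ht i (mem_univ i)
  exact ⟨t, fun W htW hW => sel_one hn hr hr2 Y hY t ht' W htW hW,
    sel_two hn hr hr2 Y hY t ht'⟩

end Pool.Agent.Helper13.RP
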