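import Pool.Agent.Helper87.RP.Defs

/-!
RP-7, step 3 (MP_464c42_nt). From the dyadic ranges of heights to `Bd1`.
-/

set_option autoImplicit false

open Pool.Agent.Helper87.Camp Pool.Agent.Helper10 Pool.Agent.Helper91.CPX

namespace Pool.Agent.Helper13.RP

open Pool.Agent.Helper24.TU Pool.Agent.Helper87.RP

private lemma mn_geom (r : ℝ) (hr : 1 < r) (m : ℕ) :
    ∑ k ∈ Finset.range (m + 1), r ^ (k + 1) ≤ r ^ 2 / (r - 1) * r ^ m := by
  have h0 : 0 < r - 1 := by linarith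
  rw [div_mul_eq_mul_div, le_div_iff₀ h0]
  induction m with
  | zero =>
    rw [Finset.sum_range_one]
    have h1 : r ^ (0 + 1) * (r - 1) = r ^ 2 * r ^ 0 - r := by ring
    linarith
  | succ m ih =>
    rw [Finset.sum_range_succ, add_mul]
    have h1 : r ^ (m + 1 + 1) * (r - 1) = r ^ 2 * r ^ (m + 1) - r ^ 2 * r ^ m := by ring
    linarith

/-- The bound in a dyadic range of heights. -/
def Dy (n r : ℕ) (e : ℝ) : Prop :=
  ∀ ε : ℝ, 0 < ε → ∃ lam0 : ℝ, 0 < lam0 ∧ ∀ lam : ℝ, 0 < lam → lam ≤ lam0 →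
    ∀ (S : Finset ℕ) (L : Matrix (Fin r) (Fin (n + 1)) ℤ), GenPos L →
    ∃ (C : ℝ) (K0 : ℕ), 0 ≤ C ∧ 1 ≤ K0 ∧ ∀ H : ℕ, 1 ≤ H → ∀ T : Finset (Fin (n + 1) → ℤ),
      (∀ x ∈ T, (∀ d : ℤ, (∀ j, d ∣ x j) → IsUnit d) ∧ ht x ≤ H ∧ H ≤ 2 * ht x ∧
        (∀ i, lin L i x ≠ 0) ∧ ∏ i, (radS S (lin L i x) : ℝ) ≤ (ht x : ℝ) ^ lam) →
      (T.card : ℝ) ≤ C * ((K0 * H : ℕ) : ℝ) ^ ((e + ε) * lam)

theorem sum_dy {n r : ℕ} {e0 : ℝ} (he0' : 0 ≤ e0) (h : Dy n r e0) : Bd1 n r e0 := by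
  classical
  intro ε hε
  obtain ⟨lam0, hlam0, hdy⟩ := h ε hε
  refine ⟨lam0, hlam0, fun lam hlam hle S L hL => ?_⟩
  obtain ⟨C, K0, hC0, hK0, hC⟩ := hdy lam hlam hle S L hL
  obtain ⟨e, he⟩ : ∃ e : ℝ, e = (e0 + ε) * lam := ⟨_, rfl⟩
  have he0 : 0 < e := by
    rw [he]
    positivity
  have hr1 : 1 < (2 : ℝ) ^ e := Real.one_lt_rpow (by norm_num) he0
  rw [← he] at hC ⊢
  refine ⟨C * (K0 : ℝ) ^ e * (((2 : ℝ) ^ e) ^ 2 / ((2 : ℝ) ^ e - 1)), fun B hB => ?_⟩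
  obtain ⟨P, hP⟩ : ∃ P : (Fin (n + 1) → ℤ) → Prop, P = fun x =>
    (∀ d : ℤ, (∀ j, d ∣ x j) → IsUnit d) ∧ (∀ i, lin L i x ≠ 0) ∧
    ∏ i, (radS S (lin L i x) : ℝ) ≤ 1 * (ht x : ℝ) ^ lam ∧ ht x ≤ B := ⟨_, rfl⟩
  have hpts : pts S L 1 lam B = {x | P x} := by
    rw [hP]
    rfl
  obtain ⟨F, hF⟩ : ∃ F : Finset (Fin (n + 1) → ℤ), F =
    (Fintype.piFinset fun _ => Finset.Icc (-(B : ℤ)) B).filter P := ⟨_, rfl⟩
  have hset : {x : Fin (n + 1) → ℤ | P x} = (F : Set (Fin (n + 1) → ℤ)) := by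
    ext x
    rw [Set.mem_ofPred_eq, Finset.mem_coe, hF, Finset.mem_filter, Fintype.mem_piFinset]
    constructor
    · intro h
      refine ⟨?_, h⟩
      rw [hP] at h
      intro j
      rw [Finset.mem_Icc]
      have h1 : (x j).natAbs ≤ B := (le_ht x j).trans h.2.2.2
      omega
    · intro h
      exact h.2
  rw [hpts, hset]
  refine ⟨F.finite_toSet, ?_⟩
  rw [Set.ncard_coe_finset]
  have hfib : ∀ k : ℕ, ((F.filter (fun x => Nat.log 2 (ht x) = k)).card : ℝ) ≤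
      C * (K0 : ℝ) ^ e * ((2 : ℝ) ^ e) ^ (k + 1) := by
    intro k
    have key := hC (2 ^ (k + 1)) Nat.one_le_two_pow
      (F.filter (fun x => Nat.log 2 (ht x) = k)) (by
      intro x hx
      rw [Finset.mem_filter, hF, Finset.mem_filter, hP] at hx
      obtain ⟨⟨-, hx1, hx2, hx3, hx4⟩, hxk⟩ := hx
      have hht : ht x ≠ 0 := by
        intro h0
        have h1 : IsUnit (0 : ℤ) := hx1 0 (fun j => by
          have h2 := le_ht x j
          rw [h0] at h2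
          have h3 : x j = 0 := by omega
          rw [h3])
        exact not_isUnit_zero h1
      have hlo : 2 ^ k ≤ ht x := by
        have := Nat.pow_log_le_self 2 hht
        rwa [hxk] at this
      have hup : ht x < 2 ^ (k + 1) := by
        have := Nat.lt_pow_succ_log_self (b := 2) (by norm_num) (ht x)
        rwa [hxk] at this
      rw [one_mul] at hx3
      refine ⟨hx1, hup.le, ?_, hx2, hx3⟩
      rw [pow_succ]
      omega)
    refine key.trans (le_of_eq ?_)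
    push_cast
    rw [Real.mul_rpow (by positivity) (by positivity), ← Real.rpow_natCast, ← Real.rpow_natCast,
      ← Real.rpow_mul (by norm_num), ← Real.rpow_mul (by norm_num), mul_comm ((k + 1 : ℕ) : ℝ) e]
    ring
  have hmaps : ∀ x ∈ F, Nat.log 2 (ht x) ∈ Finset.range (Nat.log 2 B + 1) := by
    intro x hx
    rw [hF, Finset.mem_filter, hP] at hx
    rw [Finset.mem_range]
    have := Nat.log_mono_right (b := 2) hx.2.2.2.2
    omega
  rw [Finset.card_eq_sum_card_fiberwise hmaps]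
  push_cast
  calc ∑ k ∈ Finset.range (Nat.log 2 B + 1),
      ((F.filter (fun x => Nat.log 2 (ht x) = k)).card : ℝ)
      ≤ ∑ k ∈ Finset.range (Nat.log 2 B + 1), C * (K0 : ℝ) ^ e * ((2 : ℝ) ^ e) ^ (k + 1) :=
        Finset.sum_le_sum fun k _ => hfib k
    _ = C * (K0 : ℝ) ^ e * ∑ k ∈ Finset.range (Nat.log 2 B + 1), ((2 : ℝ) ^ e) ^ (k + 1) := by
        rw [Finset.mul_sum]
    _ ≤ C * (K0 : ℝ) ^ e * (((2 : ℝ) ^ e) ^ 2 / ((2 : ℝ) ^ e - 1) *
          ((2 : ℝ) ^ e) ^ (Nat.log 2 B)) :=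
        mul_le_mul_of_nonneg_left (mn_geom _ hr1 _) (by positivity)
    _ ≤ C * (K0 : ℝ) ^ e * (((2 : ℝ) ^ e) ^ 2 / ((2 : ℝ) ^ e - 1) * (B : ℝ) ^ e) := by
        have h1 : ((2 : ℝ) ^ e) ^ (Nat.log 2 B) ≤ (B : ℝ) ^ e := by
          rw [← Real.rpow_natCast, ← Real.rpow_mul (by norm_num), mul_comm,
            Real.rpow_mul (by norm_num), Real.rpow_natCast]
          apply Real.rpow_le_rpow (by positivity) _ he0.le
          have h2 : 2 ^ Nat.log 2 B ≤ B := Nat.pow_log_le_self 2 (by omega)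
          exact_mod_cast h2
        have h2 : 0 ≤ ((2 : ℝ) ^ e) ^ 2 / ((2 : ℝ) ^ e - 1) :=
          div_nonneg (by positivity) (by linarith)
        have h3 : 0 ≤ C * (K0 : ℝ) ^ e := by positivity
        exact mul_le_mul_of_nonneg_left (mul_le_mul_of_nonneg_left h1 h2) h3
    _ = _ := by ring

end Pool.Agent.Helper13.RP
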